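import Mathlib

set_option autoImplicit false

namespace Pool.Agent.Results.MP_718be6_lc.NoLStable

open FirstOrder.Language

/-- an atom with variables in `α` -/
structure Atom (L : FirstOrder.Language.{0, 0}) (α : Type) where
  n : ℕ
  r : L.Relations n
  ts : Fin n → L.Term α

/-- a normal rule `head ← pos, ~ neg` with variables in `ℕ` -/
structure Rule (L : FirstOrder.Language.{0, 0}) where
  head : Atom L ℕ
  pos : List (Atom L ℕ)
  neg : List (Atom L ℕ)

variable {L : FirstOrder.Language.{0, 0}}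

/-- ground instance of an atom -/
def Atom.inst (a : Atom L ℕ) (σ : ℕ → L.Term Empty) : Atom L Empty :=
  ⟨a.n, a.r, fun i => (a.ts i).subst σ⟩

/-- the variable `x` occurs in the atom -/
def Atom.HasVar (a : Atom L ℕ) (x : ℕ) : Prop := ∃ i, x ∈ (a.ts i).varFinset

/-- internal-variable-free -/
def IVF (P : List (Rule L)) : Prop :=
  ∀ r ∈ P, ∀ a ∈ r.pos ++ r.neg, ∀ x, a.HasVar x → r.head.HasVar x

/-- a function symbol occurs in a term -/
def Occ (f : Σ n, L.Functions n) : L.Term ℕ → Prop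
  | .var _ => False
  | .func g ts => f = ⟨_, g⟩ ∨ ∃ i, Occ f (ts i)

/-- the symbols of `L` are finitely many and all occur in heads of `P`, so the ground atoms of `L`
form the Herbrand base of `P` -/
def SymbolsOf (P : List (Rule L)) : Prop :=
  Finite L.Symbols ∧ (∀ f : Σ n, L.Functions n, ∃ r ∈ P, ∃ i, Occ f (r.head.ts i)) ∧
    ∀ p : Σ n, L.Relations n, ∃ r ∈ P, p = ⟨r.head.n, r.head.r⟩

/-- `M` is a three-valued model of the reduct `P^I`; the values `0, u, 1` are `0, 1, 2 : Fin 3` -/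
def IsModel (P : List (Rule L)) (I M : Atom L Empty → Fin 3) : Prop :=
  ∀ r ∈ P, ∀ (σ : ℕ → L.Term Empty) (t : Fin 3), (∀ b ∈ r.pos, t ≤ M (b.inst σ)) →
    (∀ c ∈ r.neg, t ≤ (I (c.inst σ)).rev) → t ≤ M (r.head.inst σ)

/-- `I` is the least three-valued model of `P^I` -/
def StablePartial (P : List (Rule L)) (I : Atom L Empty → Fin 3) : Prop :=
  IsLeast {M | IsModel P I M} I

/-- L-stable model -/
def LStable (P : List (Rule L)) (I : Atom L Empty → Fin 3) : Prop :=
  StablePartial P I ∧ ∀ J, StablePartial P J → ¬ {a | J a = 1} ⊂ {a | I a = 1}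

/-- function symbols of the example -/
inductive Fn : ℕ → Type
  | zero : Fn 0
  | succ : Fn 1

/-- predicate symbols of the example -/
inductive Rl : ℕ → Type
  | mk : Fin 5 → Rl 1

/-- the language of the example -/
def L0 : FirstOrder.Language.{0, 0} := ⟨Fn, Rl⟩

/-- unary atom -/
def at1 {α : Type} (p : Fin 5) (t : L0.Term α) : Atom L0 α := ⟨1, Rl.mk p, fun _ => t⟩

/-- successor term -/
def sc {α : Type} (t : L0.Term α) : L0.Term α := .func Fn.succ fun _ => t

/-- zero term -/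
def zr {α : Type} : L0.Term α := .func Fn.zero Fin.elim0

/-- predicates `0,1,2,3,4` are `q, r, e, b, z` -/
def P0 : List (Rule L0) :=
  [⟨at1 0 (.var 0), [], [at1 1 (.var 0), at1 2 (.var 0)]⟩,
   ⟨at1 1 (.var 0), [], [at1 0 (.var 0)]⟩,
   ⟨at1 2 (sc (.var 0)), [at1 0 (.var 0)], []⟩,
   ⟨at1 2 (sc (.var 0)), [at1 2 (.var 0)], []⟩,
   ⟨at1 3 (.var 0), [at1 0 (.var 0)], []⟩,
   ⟨at1 3 (.var 0), [at1 3 (sc (.var 0))], []⟩,
   ⟨at1 4 (.var 0), [], [at1 4 (.var 0), at1 3 (.var 0)]⟩,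
   ⟨at1 2 zr, [at1 2 zr], []⟩]

/-- numerals -/
def num : ℕ → L0.Term Empty
  | 0 => zr
  | n + 1 => sc (num n)

/-- value of a ground term -/
def val : L0.Term Empty → ℕ
  | .var x => x.elim
  | .func Fn.zero _ => 0
  | .func Fn.succ ts => val (ts 0) + 1

lemma val_num (n : ℕ) : val (num n) = n := by
  induction n with
  | zero => rfl
  | succ n ih => simp [num, sc, val, ih]

lemma num_val (t : L0.Term Empty) : num (val t) = t := by
  induction t with
  | var x => exact x.elim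
  | func f ts ih =>
    cases f with
    | zero => exact congrArg (Term.func (L := L0) Fn.zero) (funext fun i => i.elim0)
    | succ =>
      simp only [val, num, ih, sc]
      exact congrArg _ (funext fun i => by rw [Subsingleton.elim i 0])

/-- interpretation from a table -/
def tab (m : Fin 5 → ℕ → Fin 3) : Atom L0 Empty → Fin 3
  | ⟨_, Rl.mk p, ts⟩ => m p (val (ts 0))

lemma ex_tab (I : Atom L0 Empty → Fin 3) : ∃ m, I = tab m := by
  refine ⟨fun p n => I (at1 p (num n)), funext ?_⟩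
  rintro ⟨_, ⟨p⟩, ts⟩
  simp only [tab, num_val, at1]
  congr 2
  exact funext fun i => by rw [Subsingleton.elim i 0]

lemma tab_le {m k : Fin 5 → ℕ → Fin 3} : tab m ≤ tab k ↔ ∀ p n, m p n ≤ k p n := by
  refine ⟨fun h p n => by simpa [tab, at1, val_num] using h (at1 p (num n)), fun h => ?_⟩
  rintro ⟨_, ⟨p⟩, ts⟩
  exact h _ _

/-- the ground rules -/
def Md (i m : Fin 5 → ℕ → Fin 3) : Prop := ∀ n,
  min (i 1 n).rev (i 2 n).rev ≤ m 0 n ∧ (i 0 n).rev ≤ m 1 n ∧ m 0 n ≤ m 2 (n + 1) ∧ m 2 n ≤ m 2 (n + 1) ∧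
    m 0 n ≤ m 3 n ∧ m 3 (n + 1) ≤ m 3 n ∧ min (i 4 n).rev (i 3 n).rev ≤ m 4 n

lemma model_iff (i m : Fin 5 → ℕ → Fin 3) : IsModel P0 (tab i) (tab m) ↔ Md i m := by
  simp only [IsModel, P0, List.forall_mem_cons, List.not_mem_nil, false_imp_iff, implies_true, and_true,
    Atom.inst, at1, tab, sc, zr, Term.subst, val, forall_const, ← le_min_iff]
  constructor
  · rintro ⟨h1, h2, h3, h4, h5, h6, h7, -⟩ n
    have e : val ((fun _ : ℕ => num n) 0) = n := val_num n
    refine ⟨?_, ?_, ?_, ?_, ?_, ?_, ?_⟩ <;> rw [← e]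
    exacts [h1 (fun _ => num n) _ le_rfl, h2 (fun _ => num n) _ le_rfl, h3 (fun _ => num n) _ le_rfl,
      h4 (fun _ => num n) _ le_rfl, h5 (fun _ => num n) _ le_rfl, h6 (fun _ => num n) _ le_rfl,
      h7 (fun _ => num n) _ le_rfl]
  · intro h
    exact ⟨fun σ t ht => ht.trans (h _).1, fun σ t ht => ht.trans (h _).2.1,
      fun σ t ht => ht.trans (h _).2.2.1, fun σ t ht => ht.trans (h _).2.2.2.1,
      fun σ t ht => ht.trans (h _).2.2.2.2.1, fun σ t ht => ht.trans (h _).2.2.2.2.2.1,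
      fun σ t ht => ht.trans (h _).2.2.2.2.2.2, fun _ _ ht => ht⟩

lemma stable_iff (i : Fin 5 → ℕ → Fin 3) :
    StablePartial P0 (tab i) ↔ Md i i ∧ ∀ m, Md i m → ∀ p n, i p n ≤ m p n := by
  refine and_congr (model_iff i i) ⟨fun h m hm => tab_le.1 (h ((model_iff i m).2 hm)), fun h M hM => ?_⟩
  obtain ⟨m, rfl⟩ := ex_tab M
  exact tab_le.2 (h m ((model_iff i m).1 hM))

/-- the model choosing `k` -/
def ch (k : ℕ) : Fin 5 → ℕ → Fin 3 :=
  ![fun n => if n = k then 2 else 0, fun n => if n = k then 0 else 2, fun n => if k < n then 2 else 0,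
    fun n => if k < n then 0 else 2, fun n => if k < n then 1 else 0]

lemma ch_stable (k : ℕ) : StablePartial P0 (tab (ch k)) := by
  refine (stable_iff _).2 ⟨fun n => ?_, fun m hm => ?_⟩
  · simp only [ch, Matrix.cons_val]
    refine ⟨?_, ?_, ?_, ?_, ?_, ?_, ?_⟩ <;> split_ifs <;> first | decide | omega
  · have h0 : 2 ≤ m 0 k := by simpa [ch] using (hm k).1
    have h2 : ∀ n, 2 ≤ m 2 (k + n + 1) := by
      intro n
      induction n with
      | zero => exact h0.trans (hm k).2.2.1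
      | succ n ih => exact ih.trans (hm _).2.2.2.1
    have h3 : ∀ d n, n + d = k → 2 ≤ m 3 n := by
      intro d
      induction d with
      | zero => rintro n rfl; exact h0.trans (hm _).2.2.2.2.1
      | succ d ih => exact fun n h => (ih (n + 1) (by omega)).trans (hm n).2.2.2.2.2.1
    intro p n
    fin_cases p <;> simp only [ch, Matrix.cons_val, Fin.reduceFinMk, Fin.zero_eta, Fin.mk_one] <;>
      split_ifs with h <;> try exact Fin.zero_le _
    · exact h ▸ h0
    · simpa [ch, h] using (hm n).2.1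
    · obtain ⟨d, rfl⟩ := Nat.exists_eq_add_of_lt h
      exact h2 d
    · exact h3 (k - n) n (by omega)
    · simpa [ch, h] using (hm n).2.2.2.2.2.2

lemma undef {i : Fin 5 → ℕ → Fin 3} (h : StablePartial P0 (tab i)) : ∃ k, ∀ n, k < n → i 4 n = 1 := by
  obtain ⟨h1, h2⟩ := (stable_iff i).1 h
  obtain ⟨k, hk⟩ : ∃ k, ∀ n, k < n → i 0 n ≤ 1 := by
    by_cases hq : ∃ k, i 0 k = 2
    · obtain ⟨k, hk⟩ := hq
      have h3 : ∀ n, 2 ≤ i 2 (k + n + 1) := by
        intro n
        induction n with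
        | zero => exact hk.ge.trans (h1 k).2.2.1
        | succ n ih => exact ih.trans (h1 _).2.2.2.1
      refine ⟨k, fun n hn => ?_⟩
      obtain ⟨d, rfl⟩ := Nat.exists_eq_add_of_lt hn
      have := h2 (Function.update i 0 fun n => min (i 0 n) (i 2 n).rev) (fun n => by
        obtain ⟨a1, a2, a3, a4, a5, a6, a7⟩ := h1 n
        simp only [Function.update_self, ne_eq, Fin.reduceEq, not_false_eq_true, Function.update_of_ne]
        exact ⟨le_min a1 (min_le_right _ _), a2, (min_le_left _ _).trans a3, a4,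
          (min_le_left _ _).trans a5, a6, a7⟩) 0 (k + d + 1)
      rw [Function.update_self, top_le_iff.1 (h3 d)] at this
      exact this.trans ((min_le_right _ _).trans (by decide))
    · exact ⟨0, fun n _ => (by decide : ∀ x : Fin 3, x ≠ 2 → x ≤ 1) _ fun h => hq ⟨n, h⟩⟩
  refine ⟨k, fun n hn => ?_⟩
  have h3 := h2 (Function.update i 3 fun n => if k < n then min (i 3 n) 1 else i 3 n) (fun n => by
    obtain ⟨a1, a2, a3, a4, a5, a6, a7⟩ := h1 n
    simp only [Function.update_self, ne_eq, Fin.reduceEq, not_false_eq_true, Function.update_of_ne]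
    refine ⟨a1, a2, a3, a4, ?_, ?_, a7⟩
    · split_ifs with h
      exacts [le_min a5 (hk n h), a5]
    · split_ifs with h h' h'
      exacts [min_le_min_right _ a6, (min_le_left _ _).trans a6, by omega, a6]) 3 n
  have h4 := h2 (Function.update i 4 fun n => (i 4 n).rev) (fun n => by
    obtain ⟨a1, a2, a3, a4, a5, a6, a7⟩ := h1 n
    simp only [Function.update_self, ne_eq, Fin.reduceEq, not_false_eq_true, Function.update_of_ne]
    exact ⟨a1, a2, a3, a4, a5, a6, min_le_left _ _⟩) 4 n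
  rw [Function.update_self, if_pos hn] at h3
  rw [Function.update_self] at h4
  exact (by decide : ∀ x y : Fin 3, y ≤ 1 → x ≤ x.rev → min x.rev y.rev ≤ x → x = 1) _ _
    (h3.trans (min_le_right _ _)) h4 (h1 n).2.2.2.2.2.2

theorem result : ∃ (L : FirstOrder.Language.{0, 0}) (P : List (Rule L)), SymbolsOf P ∧ IVF P ∧
    ¬ ∃ I, LStable P I := by
  refine ⟨L0, P0, ⟨?_, ?_, ?_⟩, ?_, ?_⟩
  · refine Finite.of_surjective (α := Fin 2 ⊕ Fin 5)
      (Sum.map ![⟨0, Fn.zero⟩, ⟨1, Fn.succ⟩] fun p => ⟨1, Rl.mk p⟩) ?_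
    rintro (⟨_, _ | _⟩ | ⟨_, ⟨p⟩⟩)
    exacts [⟨.inl 0, rfl⟩, ⟨.inl 1, rfl⟩, ⟨.inr p, rfl⟩]
  · rintro ⟨_, _ | _⟩
    · exact ⟨⟨at1 2 zr, [at1 2 zr], []⟩, by simp [P0], (0 : Fin 1), Or.inl rfl⟩
    · exact ⟨⟨at1 2 (sc (.var 0)), [at1 0 (.var 0)], []⟩, by simp [P0], (0 : Fin 1), Or.inl rfl⟩
  · rintro ⟨_, ⟨p⟩⟩
    fin_cases p <;> simp [P0, at1]
  · simp [IVF, P0, Atom.HasVar, at1, sc, zr, Term.varFinset]
  · rintro ⟨I, h1, h2⟩
    obtain ⟨i, rfl⟩ := ex_tab I
    obtain ⟨k, hk⟩ := undef h1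
    refine h2 _ (ch_stable (k + 1)) ⟨?_, fun h => ?_⟩
    · rintro ⟨_, ⟨p⟩, ts⟩ (h : ch (k + 1) p (val (ts 0)) = 1)
      show i p (val (ts 0)) = 1
      fin_cases p <;> simp only [ch, Matrix.cons_val, Fin.reduceFinMk, Fin.zero_eta, Fin.mk_one] at h <;>
        split_ifs at h with h' <;> first | exact hk _ (by omega) | exact absurd h (by decide)
    · have : ch (k + 1) 4 (val (num (k + 1))) = 1 :=
        h (a := at1 4 (num (k + 1))) (hk (val (num (k + 1))) (by rw [val_num]; omega))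
      simp [ch, val_num] at this

end Pool.Agent.Results.MP_718be6_lc.NoLStable
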